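import Mathlib

namespace Pool.Agent.Results.MP_339db1_al.NotAll

universe u

/-- A `d`-CP structure on a monoid. -/
def IsCP {M : Type u} [Monoid M] (d : ℕ) (Φ : (Fin d → M) → M) (τ : Fin d → M) : Prop :=
  Function.Bijective Φ ∧ ∀ (m : Fin d → M) (i : Fin d), τ i * Φ m = m i

/-- A CP monoid structure `(Σ, π₁, π₂)`. -/
def IsCP2 {M : Type u} [Monoid M] (S : M × M → M) (p₁ p₂ : M) : Prop :=
  Function.Bijective S ∧ ∀ a b : M, p₁ * S (a, b) = a ∧ p₂ * S (a, b) = b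

/-- `(U, Σ, π₁, π₂)` is initial among CP monoids (with carrier in the same universe). -/
def IsInitial {U : Type} [Monoid U] (S : U × U → U) (p₁ p₂ : U) : Prop :=
  ∀ (N : Type) [Monoid N] (T : N × N → N) (t₁ t₂ : N), IsCP2 T t₁ t₂ →
    ∃! f : U →* N, f p₁ = t₁ ∧ f p₂ = t₂ ∧ ∀ a b, f (S (a, b)) = T (f a, f b)

/-- The structures obtained from `(Σ; π₁, π₂)` and `(id; 1)` by repeated combination. -/
inductive InS {M : Type u} [Monoid M] (S : M × M → M) (p₁ p₂ : M) :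
    (d : ℕ) → ((Fin d → M) → M) → (Fin d → M) → Prop
  | two : InS S p₁ p₂ 2 (fun m => S (m 0, m 1)) ![p₁, p₂]
  | one : InS S p₁ p₂ 1 (fun m => m 0) ![1]
  | comb (s : ℕ) (Ψ : (Fin s → M) → M) (ρ : Fin s → M) (d : Fin s → ℕ)
      (Φ : ∀ i, (Fin (d i) → M) → M) (τ : ∀ i, Fin (d i) → M) :
      InS S p₁ p₂ s Ψ ρ → (∀ i, InS S p₁ p₂ (d i) (Φ i) (τ i)) →
      InS S p₁ p₂ (∑ i, d i)
        (fun m => Ψ fun i => Φ i fun j => m (finSigmaFinEquiv ⟨i, j⟩))
        (fun k => τ (finSigmaFinEquiv.symm k).1 (finSigmaFinEquiv.symm k).2 *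
          ρ (finSigmaFinEquiv.symm k).1)

/-- The submonoid generated by all `Φ(τ_{f 1}, …, τ_{f d})`. -/
def G {M : Type u} [Monoid M] (S : M × M → M) (p₁ p₂ : M) : Submonoid M :=
  Submonoid.closure {x | ∃ (d : ℕ) (Φ : (Fin d → M) → M) (τ : Fin d → M) (f : Fin d → Fin d),
    2 ≤ d ∧ InS S p₁ p₂ d Φ τ ∧ x = Φ fun i => τ (f i)}

variable {M : Type u} [Monoid M]

lemma isCP_of_inS {S : M × M → M} {p₁ p₂ : M} (h : IsCP2 S p₁ p₂) {d : ℕ}
    {Φ : (Fin d → M) → M} {τ : Fin d → M} (hs : InS S p₁ p₂ d Φ τ) : IsCP d Φ τ := by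
  induction hs with
  | two =>
    refine ⟨h.1.comp (finTwoArrowEquiv M).bijective, fun m i => ?_⟩
    fin_cases i
    · exact (h.2 _ _).1
    · exact (h.2 _ _).2
  | one =>
    refine ⟨(Equiv.funUnique (Fin 1) M).bijective, fun m i => ?_⟩
    fin_cases i
    simp
  | comb s Ψ ρ d Φ τ _ _ ih1 ih2 =>
    have key : ∀ (m : Fin (∑ i, d i) → M) (k : Fin (∑ i, d i)),
        τ (finSigmaFinEquiv.symm k).1 (finSigmaFinEquiv.symm k).2 * ρ (finSigmaFinEquiv.symm k).1 *
          Ψ (fun i => Φ i fun j => m (finSigmaFinEquiv ⟨i, j⟩)) = m k := by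
      intro m k
      rw [mul_assoc, ih1.2, (ih2 _).2]
      simp
    refine ⟨⟨fun m m' hm => funext fun k => ?_, fun x => ?_⟩, key⟩
    · rw [← key m k, ← key m' k]
      exact congrArg _ hm
    · obtain ⟨y, rfl⟩ := ih1.1.2 x
      choose z hz using fun i => (ih2 i).1.2 (y i)
      refine ⟨fun k => z (finSigmaFinEquiv.symm k).1 (finSigmaFinEquiv.symm k).2, ?_⟩
      simp only
      congr 1
      funext i
      rw [← hz i]
      congr 1
      funext j
      rw [Equiv.symm_apply_apply]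

lemma IsCP.ext {d : ℕ} {Φ : (Fin d → M) → M} {τ : Fin d → M} (h : IsCP d Φ τ) {x y : M}
    (hxy : ∀ i, τ i * x = τ i * y) : x = y := by
  obtain ⟨a, rfl⟩ := h.1.2 x
  obtain ⟨b, rfl⟩ := h.1.2 y
  congr 1
  funext i
  rw [← h.2 a i, ← h.2 b i, hxy i]

lemma isUnit_gen [Nontrivial M] {d : ℕ} {Φ : (Fin d → M) → M} {τ : Fin d → M} (h : IsCP d Φ τ)
    (f : Fin d → Fin d) {r : M} (hr : (Φ fun i => τ (f i)) * r = 1) :
    IsUnit (Φ fun i => τ (f i)) := by
  classical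
  have hinj : Function.Injective f := by
    intro i j hij
    by_contra hne
    have h1 : τ i = τ j := by
      rw [← mul_one (τ i), ← mul_one (τ j), ← hr, ← mul_assoc, ← mul_assoc, h.2, h.2, hij]
    obtain ⟨a, b, hab⟩ := exists_pair_ne M
    have h2 := h.2 (fun k => if k = i then a else b) i
    have h3 := h.2 (fun k => if k = i then a else b) j
    rw [h1, h3] at h2
    simp [Ne.symm hne] at h2
    exact hab h2.symm
  obtain ⟨g, hg⟩ := (Finite.injective_iff_surjective.1 hinj).hasRightInverse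
  have hl : (Φ fun i => τ (g i)) * (Φ fun i => τ (f i)) = 1 :=
    h.ext fun i => by rw [← mul_assoc, h.2, h.2, hg, mul_one]
  have e : r = Φ fun i => τ (g i) := by
    rw [← one_mul r, ← hl, mul_assoc, hr, mul_one]
  exact ⟨⟨_, r, hr, e ▸ hl⟩, rfl⟩

theorem notMem [Nontrivial M] {S : M × M → M} {p₁ p₂ : M} (h : IsCP2 S p₁ p₂) :
    p₁ ∉ G S p₁ p₂ := by
  have key : ∀ x ∈ G S p₁ p₂, ∀ r, x * r = 1 → IsUnit x := by
    intro x hx
    induction hx using Submonoid.closure_induction_left with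
    | one => exact fun _ _ => isUnit_one
    | mul_left x hx y _ ih =>
      intro r hr
      obtain ⟨d, Φ, τ, f, -, hs, rfl⟩ := hx
      have hu := isUnit_gen (isCP_of_inS h hs) f (r := y * r) (by rwa [← mul_assoc])
      obtain ⟨v, hv⟩ := hu
      rw [← hv] at hr ⊢
      refine v.isUnit.mul (ih (r * v) ?_)
      have : y * r = ↑v⁻¹ := by
        rw [← Units.inv_mul_cancel_left v (y * r), ← mul_assoc (v : M), hr, mul_one]
      rw [← mul_assoc, this, Units.inv_mul]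
  intro hp
  obtain ⟨a, b, hab⟩ := exists_pair_ne M
  have hu := key _ hp _ (h.2 1 1).1
  have := hu.mul_left_cancel ((h.2 1 a).1.trans (h.2 1 b).1.symm)
  exact hab (congrArg Prod.snd (h.1.1 this))

theorem result (U : Type) [Monoid U] (S : U × U → U) (p₁ p₂ : U) (h : IsCP2 S p₁ p₂)
    (hU : IsInitial S p₁ p₂) : p₁ ∉ G S p₁ p₂ ∧ G S p₁ p₂ ≠ ⊤ := by
  have hN : IsCP2 (M := Function.End ℕ) (fun ab n => Nat.pair (ab.1 n) (ab.2 n))
      (fun n => n.unpair.1) (fun n => n.unpair.2) := by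
    refine ⟨⟨fun ab cd e => ?_, fun x => ⟨(fun n => (x n).unpair.1, fun n => (x n).unpair.2),
      funext fun n => Nat.pair_unpair _⟩⟩, fun a b => ⟨funext fun n => ?_, funext fun n => ?_⟩⟩
    · exact Prod.ext (funext fun n => (Nat.pair_eq_pair.1 (congrFun e n)).1)
        (funext fun n => (Nat.pair_eq_pair.1 (congrFun e n)).2)
    · show (Nat.unpair (Nat.pair (a n) (b n))).1 = a n
      rw [Nat.unpair_pair]
    · show (Nat.unpair (Nat.pair (a n) (b n))).2 = b n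
      rw [Nat.unpair_pair]
  obtain ⟨f, ⟨h1, -⟩, -⟩ := hU _ _ _ _ hN
  haveI : Nontrivial U := ⟨⟨p₁, 1, fun e => by
    rw [e, map_one] at h1
    have := congrFun h1 1
    revert this
    show ¬ (1 : ℕ) = (Nat.unpair 1).1
    decide⟩⟩
  exact ⟨notMem h, fun e => notMem h (e ▸ Submonoid.mem_top _)⟩

end Pool.Agent.Results.MP_339db1_al.NotAll
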